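import Mathlib

set_option autoImplicit false
open Polynomial

namespace Pool.Agent.Results.MP_4bcb19_an.Quartic

/-- signed curvature of the graph of `p` -/
noncomputable def curv (p : ℝ[X]) (x : ℝ) : ℝ :=
  (derivative (derivative p)).eval x / (1 + ((derivative p).eval x) ^ 2) ^ (3 / 2 : ℝ)

noncomputable def p0 : ℝ[X] := X ^ 4 + C 2 * X ^ 2

lemma curv_eq : curv p0 = fun x : ℝ =>
    (12 * x ^ 2 + 4) / (1 + (4 * x ^ 3 + 4 * x) ^ 2) ^ (3 / 2 : ℝ) := by
  funext x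
  have h1 : (derivative p0).eval x = 4 * x ^ 3 + 4 * x := by
    simp [p0]; ring
  have h2 : (derivative (derivative p0)).eval x = 12 * x ^ 2 + 4 := by
    simp [p0]; ring
  simp only [curv, h1, h2]

lemma hasDeriv (x : ℝ) : HasDerivAt (curv p0)
    (x * (24 - 192 * (x ^ 2 + 1) * (7 * x ^ 4 + 4 * x ^ 2 + 1)) /
      ((1 + (4 * x ^ 3 + 4 * x) ^ 2) ^ (3 / 2 : ℝ) * (1 + (4 * x ^ 3 + 4 * x) ^ 2))) x := by
  rw [curv_eq]
  have hpos : 0 < 1 + (4 * x ^ 3 + 4 * x) ^ 2 := by positivity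
  have hn : HasDerivAt (fun x : ℝ => 12 * x ^ 2 + 4) (24 * x) x := by
    exact (((hasDerivAt_pow 2 x).const_mul 12).add_const 4).congr_deriv (by simp; ring)
  have hg : HasDerivAt (fun x : ℝ => 1 + (4 * x ^ 3 + 4 * x) ^ 2)
      (2 * (4 * x ^ 3 + 4 * x) * (12 * x ^ 2 + 4)) x := by
    have h1 : HasDerivAt (fun x : ℝ => 4 * x ^ 3 + 4 * x) (12 * x ^ 2 + 4) x := by
      exact (((hasDerivAt_pow 3 x).const_mul 4).add ((hasDerivAt_id' x).const_mul 4)).congr_deriv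
        (by simp; ring)
    exact ((h1.fun_pow 2).const_add 1).congr_deriv (by simp)
  have hd := hg.rpow_const (p := (3 / 2 : ℝ)) (Or.inl hpos.ne')
  have hP : 0 < (1 + (4 * x ^ 3 + 4 * x) ^ 2) ^ (3 / 2 : ℝ) := Real.rpow_pos_of_pos hpos _
  refine (hn.fun_div hd hP.ne').congr_deriv ?_
  rw [Real.rpow_sub_one hpos.ne']
  field_simp
  ring

lemma crit (x : ℝ) (h : deriv (curv p0) x = 0) : x = 0 := by
  rw [(hasDeriv x).deriv] at h
  have hpos : 0 < 1 + (4 * x ^ 3 + 4 * x) ^ 2 := by positivity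
  have hP : 0 < (1 + (4 * x ^ 3 + 4 * x) ^ 2) ^ (3 / 2 : ℝ) := Real.rpow_pos_of_pos hpos _
  rcases div_eq_zero_iff.1 h with h | h
  · rcases mul_eq_zero.1 h with h | h
    · exact h
    · exfalso
      have h2 : 0 ≤ x ^ 2 := by positivity
      have h4 : 0 ≤ x ^ 4 := by positivity
      nlinarith [mul_nonneg h2 h4, mul_nonneg h2 h2]
  · exact absurd h (mul_pos hP hpos).ne'

theorem result : ∃ p : ℝ[X], 2 < p.natDegree ∧
    {x : ℝ | IsLocalMax (curv p) x ∨ IsLocalMin (curv p) x}.encard < ((p.natDegree - 1 : ℕ) : ℕ∞) ∧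
    {x : ℝ | deriv (curv p) x = 0}.encard < ((p.natDegree - 1 : ℕ) : ℕ∞) := by
  have hdeg : p0.natDegree = 4 := by unfold p0; compute_degree!
  have h2 : {x : ℝ | deriv (curv p0) x = 0}.encard ≤ 1 := by
    rw [← Set.encard_singleton (0 : ℝ)]
    exact Set.encard_le_encard fun x hx => crit x hx
  refine ⟨p0, by omega, ?_, ?_⟩
  · refine lt_of_le_of_lt (le_trans (Set.encard_le_encard ?_) h2) (by rw [hdeg]; norm_num)
    rintro x (hx | hx)
    · exact hx.deriv_eq_zero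
    · exact hx.deriv_eq_zero
  · exact lt_of_le_of_lt h2 (by rw [hdeg]; norm_num)

end Pool.Agent.Results.MP_4bcb19_an.Quartic
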